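import Mathlib

namespace Pool.Agent.MP_3fa95c_lc.H70

/-- A deterministic pushdown automaton with output: `nq` states, `ng` stack symbols, start state
`q0`; `δ q top x` gives the next state and the word replacing the top symbol when the letter `x`
is read (`top = none` on the empty stack); `ε q γ = some q'` is an ε-move popping `γ`;
`τ` is the output map. -/
structure DPDA where
  nq : ℕ
  ng : ℕ
  q0 : Fin nq
  δ : Fin nq → Option (Fin ng) → ℕ → Fin nq × List (Fin ng)
  ε : Fin nq → Fin ng → Option (Fin nq)
  τ : Fin nq → Option (Fin ng) → ℤ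

namespace DPDA

/-- Perform all possible ε-moves. -/
def settle (A : DPDA) : Fin A.nq → List (Fin A.ng) → Fin A.nq × List (Fin A.ng)
  | q, [] => (q, [])
  | q, γ :: s =>
    match A.ε q γ with
    | some q' => settle A q' s
    | none => (q, γ :: s)

/-- Read one letter, then perform all possible ε-moves. -/
def read (A : DPDA) (C : Fin A.nq × List (Fin A.ng)) (x : ℕ) : Fin A.nq × List (Fin A.ng) :=
  A.settle (A.δ C.1 C.2.head? x).1 ((A.δ C.1 C.2.head? x).2 ++ C.2.tail)

/-- The output on the base-`k` expansion of `n`, read from the most significant digit. -/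
def digit (A : DPDA) (k n : ℕ) : ℤ :=
  A.τ ((Nat.digits k n).reverse.foldl A.read (A.q0, [])).1
    ((Nat.digits k n).reverse.foldl A.read (A.q0, [])).2.head?

end DPDA

/-- `a` is the output of a tag machine with dilation factor `> 1`: a coding of a fixed point `u`
of a morphism `σ` with `|σ(u_0 … u_(n-1))| ≥ δ n` for some `δ > 1` and all large `n`. -/
def TagGen (a : ℕ → ℤ) : Prop :=
  ∃ (m : ℕ) (σ : Fin m → List (Fin m)) (u : ℕ → Fin m) (φ : Fin m → ℤ) (δ : ℝ) (n0 : ℕ),
    1 < δ ∧ (∀ n, a n = φ (u n)) ∧
    (∀ n, (List.range n).flatMap (fun j => σ (u j)) =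
      (List.range ((List.range n).flatMap fun j => σ (u j)).length).map u) ∧
    ∀ n, n0 ≤ n → δ * n ≤ ((List.range n).flatMap fun j => σ (u j)).length

/-- `a` takes finitely many values and has `O(n)` distinct factors of length `n`. -/
def LinGen (a : ℕ → ℤ) : Prop :=
  (Set.range a).Finite ∧ ∃ C : ℕ, ∀ n, 1 ≤ n →
    (Set.range fun i => (List.range n).map fun t => a (i + t)).ncard ≤ C * n

/-- `a` takes finitely many values and `a n` is the output of a deterministic one-way machine with
an arbitrary set of states, reading `n` in base `k` from the most significant digit, which ends in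
only `o(P / log P)` different states on the inputs `n < P`. -/
def MemGen (a : ℕ → ℤ) : Prop :=
  (Set.range a).Finite ∧ ∃ (k : ℕ) (Q : Type) (δ : Q → ℕ → Q) (q0 : Q) (τ : Q → ℤ), 2 ≤ k ∧
    (∀ n, a n = τ ((Nat.digits k n).reverse.foldl δ q0)) ∧
    Filter.Tendsto (fun P : ℕ =>
      (((fun n => (Nat.digits k n).reverse.foldl δ q0) '' Set.Iio P).ncard : ℝ) * Real.log P / P)
      Filter.atTop (nhds 0)

end Pool.Agent.MP_3fa95c_lc.H70
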